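import Pool.Agent.Lib.MP_86a502_gt.U.Fin2
import Pool.Agent.Lib.MP_86a502_gt.U.DatA

/-!
# There are no compact hyperbolic Coxeter polytopes in dimension at least 22
-/

set_option autoImplicit false

namespace Pool.Agent.Results.MP_86a502_gt.DimensionBound

open MP86a502

/-- There is no compact Coxeter polytope in `H^n` for `n ≥ 22`. -/
theorem result (n : ℕ) (hn : 22 ≤ n) :
    ¬ ∃ (N : ℕ) (e : Fin N → (Fin (n + 1) → ℝ)),
      (∀ i, -(e i 0 * e i 0) + ∑ k : Fin n, e i k.succ * e i k.succ = 1) ∧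
      (∀ i j, i ≠ j →
        (-(e i 0 * e j 0) + ∑ k : Fin n, e i k.succ * e j k.succ ≤ -1 ∨
          ∃ m : ℕ, 2 ≤ m ∧
            -(e i 0 * e j 0) + ∑ k : Fin n, e i k.succ * e j k.succ
              = -Real.cos (Real.pi / (m : ℝ)))) ∧
      IsCompact {x : Fin (n + 1) → ℝ |
        -(x 0 * x 0) + ∑ k : Fin n, x k.succ * x k.succ = -1 ∧ 0 < x 0 ∧
        ∀ i, -(x 0 * e i 0) + ∑ k : Fin n, x k.succ * e i k.succ ≤ 0} ∧
      ∃ x : Fin (n + 1) → ℝ,
        -(x 0 * x 0) + ∑ k : Fin n, x k.succ * x k.succ = -1 ∧ 0 < x 0 ∧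
        ∀ i, -(x 0 * e i 0) + ∑ k : Fin n, x k.succ * e i k.succ < 0 := by
  rintro ⟨N, e, hunit, hang, hcpt, hint⟩
  exact no_ccp hn ⟨hunit, hang, hcpt, hint⟩ (fun h k hhk hk => hdat h k hhk hk)

end Pool.Agent.Results.MP_86a502_gt.DimensionBound
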