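import Pool.Agent.Lib.MP_86a502_gt.Fin

/-!
# Compact Coxeter polytopes of dimension at least 21 have a Lannér subdiagram of order at least 4
-/

set_option autoImplicit false

namespace Pool.Agent.Results.MP_86a502_gt.LannerOrderFour

open MP86a502

/-- Every compact Coxeter polytope in `H^n`, `n ≥ 21`, has at least four facets without a common
point such that every proper subset of them has a common point in the polytope. -/
theorem result (n : ℕ) (hn : 21 ≤ n) (N : ℕ) (e : Fin N → (Fin (n + 1) → ℝ))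
    (hunit : ∀ i, -(e i 0 * e i 0) + ∑ k : Fin n, e i k.succ * e i k.succ = 1)
    (hang : ∀ i j, i ≠ j →
      (-(e i 0 * e j 0) + ∑ k : Fin n, e i k.succ * e j k.succ ≤ -1 ∨
        ∃ m : ℕ, 2 ≤ m ∧
          -(e i 0 * e j 0) + ∑ k : Fin n, e i k.succ * e j k.succ
            = -Real.cos (Real.pi / (m : ℝ))))
    (hcpt : IsCompact {x : Fin (n + 1) → ℝ |
      -(x 0 * x 0) + ∑ k : Fin n, x k.succ * x k.succ = -1 ∧ 0 < x 0 ∧
      ∀ i, -(x 0 * e i 0) + ∑ k : Fin n, x k.succ * e i k.succ ≤ 0})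
    (hint : ∃ x : Fin (n + 1) → ℝ,
      -(x 0 * x 0) + ∑ k : Fin n, x k.succ * x k.succ = -1 ∧ 0 < x 0 ∧
      ∀ i, -(x 0 * e i 0) + ∑ k : Fin n, x k.succ * e i k.succ < 0) :
    ∃ S : Finset (Fin N), 4 ≤ S.card ∧
      (¬ ∃ x : Fin (n + 1) → ℝ,
        -(x 0 * x 0) + ∑ k : Fin n, x k.succ * x k.succ = -1 ∧ 0 < x 0 ∧
        (∀ i, -(x 0 * e i 0) + ∑ k : Fin n, x k.succ * e i k.succ ≤ 0) ∧
        ∀ i ∈ S, -(x 0 * e i 0) + ∑ k : Fin n, x k.succ * e i k.succ = 0) ∧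
      ∀ S' ⊂ S, ∃ x : Fin (n + 1) → ℝ,
        -(x 0 * x 0) + ∑ k : Fin n, x k.succ * x k.succ = -1 ∧ 0 < x 0 ∧
        (∀ i, -(x 0 * e i 0) + ∑ k : Fin n, x k.succ * e i k.succ ≤ 0) ∧
        ∀ i ∈ S', -(x 0 * e i 0) + ∑ k : Fin n, x k.succ * e i k.succ = 0 := by
  exact missing_face hn ⟨hunit, hang, hcpt, hint⟩

end Pool.Agent.Results.MP_86a502_gt.LannerOrderFour
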